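import Pool.Agent.Y714.KE.Stm

/-!
# Project KE: summation over the cells
-/

set_option autoImplicit false
set_option linter.unusedSectionVars false
set_option linter.unusedVariables false

noncomputable section

namespace Pool.Agent.Y288.KE

open Pool.Agent.Y714.KE MeasureTheory Filter Topology Finset

section forms

variable {s m : Type} [Fintype s] [DecidableEq s] [Fintype m] (i₀ : s) (w : s → ℝ)
  (a : m → s → ℝ)

/-- extension by zero -/
def ex {R : Type} [Zero R] (x : {i : s // i ≠ i₀} → R) : s → R := fun i =>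
  if h : i = i₀ then 0 else x ⟨i, h⟩

/-- the point of the hyperplane with the given coordinates -/
def Yf (x : {i : s // i ≠ i₀} → ℝ) : s → ℝ := fun i =>
  if i = i₀ then (1 / 2 - ∑ j ∈ univ.erase i₀, w j * ex i₀ x j) / w i₀ else ex i₀ x i

/-- the linear forms in the coordinates -/
def la (l : m) (x : {i : s // i ≠ i₀} → ℝ) : ℝ := ∑ i, a l i * Yf i₀ w x i

/-- the shrunk polyhedron -/
def DD (δ : ℝ) : Set ({i : s // i ≠ i₀} → ℝ) := {x | ∀ l, δ < la i₀ w a l x}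

theorem ex_of_ne {R : Type} [Zero R] (x : {i : s // i ≠ i₀} → R) {i : s} (h : i ≠ i₀) :
    ex i₀ x i = x ⟨i, h⟩ := by
  unfold ex; rw [dif_neg h]

theorem ex_self {R : Type} [Zero R] (x : {i : s // i ≠ i₀} → R) : ex i₀ x i₀ = 0 := by
  unfold ex; rw [dif_pos rfl]

theorem ex_inj {R : Type} [Zero R] : Function.Injective (ex (R := R) i₀) := by
  intro x y h
  funext i
  have := congrFun h i.1
  rw [ex_of_ne i₀ x i.2, ex_of_ne i₀ y i.2] at this
  exact this

theorem ex_aff (r : ℝ) (x c : {i : s // i ≠ i₀} → ℝ) (i : s) :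
    ex i₀ (r • (x - c) + c) i = r * ex i₀ x i + (1 - r) * ex i₀ c i := by
  by_cases h : i = i₀
  · subst h
    rw [ex_self, ex_self, ex_self]; ring
  · rw [ex_of_ne i₀ _ h, ex_of_ne i₀ _ h, ex_of_ne i₀ _ h]
    simp only [Pi.add_apply, Pi.smul_apply, Pi.sub_apply, smul_eq_mul]
    ring

theorem Yf_aff (r : ℝ) (x c : {i : s // i ≠ i₀} → ℝ) (i : s) :
    Yf i₀ w (r • (x - c) + c) i = r * Yf i₀ w x i + (1 - r) * Yf i₀ w c i := by
  unfold Yf
  by_cases h : i = i₀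
  · rw [if_pos h, if_pos h, if_pos h]
    have h1 : ∑ j ∈ univ.erase i₀, w j * ex i₀ (r • (x - c) + c) j =
        r * ∑ j ∈ univ.erase i₀, w j * ex i₀ x j + (1 - r) * ∑ j ∈ univ.erase i₀, w j * ex i₀ c j := by
      rw [Finset.mul_sum, Finset.mul_sum, ← Finset.sum_add_distrib]
      refine Finset.sum_congr rfl fun j _ => ?_
      rw [ex_aff]; ring
    rw [h1]; ring
  · rw [if_neg h, if_neg h, if_neg h, ex_aff]

theorem la_aff (l : m) (r : ℝ) (x c : {i : s // i ≠ i₀} → ℝ) :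
    la i₀ w a l (r • (x - c) + c) = r * la i₀ w a l x + (1 - r) * la i₀ w a l c := by
  unfold la
  rw [Finset.mul_sum, Finset.mul_sum, ← Finset.sum_add_distrib]
  refine Finset.sum_congr rfl fun i _ => ?_
  rw [Yf_aff]; ring

theorem Yf_sum (hw : ∀ i, 0 < w i) (x : {i : s // i ≠ i₀} → ℝ) :
    ∑ i, w i * Yf i₀ w x i = 1 / 2 := by
  have h1 : ∑ j ∈ univ.erase i₀, w j * Yf i₀ w x j = ∑ j ∈ univ.erase i₀, w j * ex i₀ x j := by
    refine Finset.sum_congr rfl fun j hj => ?_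
    unfold Yf
    rw [if_neg (Finset.ne_of_mem_erase hj)]
  rw [← Finset.sum_erase_add _ _ (Finset.mem_univ i₀), h1]
  have h2 : Yf i₀ w x i₀ = (1 / 2 - ∑ j ∈ univ.erase i₀, w j * ex i₀ x j) / w i₀ := by
    unfold Yf; rw [if_pos rfl]
  rw [h2]
  have := (hw i₀).ne'
  field_simp
  ring

theorem Yf_restrict (hw : ∀ i, 0 < w i) (y : s → ℝ) (hy : ∑ i, w i * y i = 1 / 2) :
    Yf i₀ w (fun j => y j.1) = y := by
  have h1 : ∑ j ∈ univ.erase i₀, w j * ex i₀ (fun j : {i : s // i ≠ i₀} => y j.1) j =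
      ∑ j ∈ univ.erase i₀, w j * y j := by
    refine Finset.sum_congr rfl fun j hj => ?_
    rw [ex_of_ne i₀ _ (Finset.ne_of_mem_erase hj)]
  funext i
  by_cases h : i = i₀
  · subst h
    unfold Yf
    rw [if_pos rfl, h1, ← hy, ← Finset.sum_erase_add _ _ (Finset.mem_univ i)]
    have := (hw i).ne'
    field_simp
    ring
  · unfold Yf
    rw [if_neg h, ex_of_ne i₀ _ h]

theorem continuous_Yf (i : s) : Continuous fun x : {i : s // i ≠ i₀} → ℝ => Yf i₀ w x i := by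
  have hex : ∀ j, Continuous fun x : {i : s // i ≠ i₀} → ℝ => ex i₀ x j := by
    intro j
    by_cases h : j = i₀
    · subst h
      simp only [ex_self]
      exact continuous_const
    · simp only [ex_of_ne i₀ _ h]
      exact continuous_apply _
  unfold Yf
  by_cases h : i = i₀
  · simp only [if_pos h]
    exact (continuous_const.sub (continuous_finsetSum _ fun j _ =>
      continuous_const.mul (hex j))).div_const _
  · simp only [if_neg h]
    exact hex i

theorem continuous_la (l : m) : Continuous (la i₀ w a l) := by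
  unfold la
  exact continuous_finsetSum _ fun i _ => continuous_const.mul (continuous_Yf i₀ w i)

theorem DD_open (δ : ℝ) : IsOpen (DD i₀ w a δ) := by
  have : DD i₀ w a δ = ⋂ l, (la i₀ w a l) ⁻¹' (Set.Ioi δ) := by
    ext x; simp [DD]
  rw [this]
  exact isOpen_iInter_of_finite fun l => isOpen_Ioi.preimage (continuous_la i₀ w a l)

theorem DD_convex (δ : ℝ) : Convex ℝ (DD i₀ w a δ) := by
  intro x hx y hy p q hp hq hpq l
  have h1 : p • x + q • y = p • (x - y) + y := by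
    have : q = 1 - p := by linarith
    rw [this, smul_sub, sub_smul, one_smul]; abel
  rw [h1, la_aff]
  have h2 := hx l
  have h3 := hy l
  have h4 : q = 1 - p := by linarith
  rw [← h4]
  rcases hp.eq_or_lt with h | h
  · rw [← h] at hpq ⊢
    have : q = 1 := by linarith
    rw [this]; linarith
  · have h5 : p * δ < p * la i₀ w a l x := mul_lt_mul_of_pos_left h2 h
    have h6 : q * δ ≤ q * la i₀ w a l y := mul_le_mul_of_nonneg_left h3.le hq
    have h7 : p * δ + q * δ = δ := by rw [← add_mul, hpq, one_mul]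
    linarith

theorem DD_mono {δ δ' : ℝ} (h : δ ≤ δ') : DD i₀ w a δ' ⊆ DD i₀ w a δ :=
  fun x hx l => lt_of_le_of_lt h (hx l)

/-- the scaling of the cells -/
theorem yy_scale (k : {i : s // i ≠ i₀} → ℤ) (t : ℝ) (ht : 0 < Real.log t) (i : s) :
    yy w i₀ (ex i₀ k) t i = Real.log t * Yf i₀ w (fun j => (k j : ℝ) / Real.log t) i := by
  have h0 : ∀ j, ((ex i₀ k j : ℤ) : ℝ) = Real.log t *
      ex i₀ (fun j : {i : s // i ≠ i₀} => (k j : ℝ) / Real.log t) j := by
    intro j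
    by_cases h : j = i₀
    · subst h
      rw [ex_self, ex_self]; simp
    · rw [ex_of_ne i₀ _ h, ex_of_ne i₀ _ h]
      field_simp
  unfold yy Yf
  by_cases h : i = i₀
  · rw [if_pos h, if_pos h]
    have h1 : ∑ j ∈ univ.erase i₀, w j * ((ex i₀ k j : ℤ) : ℝ) = Real.log t *
        ∑ j ∈ univ.erase i₀, w j * ex i₀ (fun j : {i : s // i ≠ i₀} => (k j : ℝ) / Real.log t) j := by
      rw [Finset.mul_sum]
      refine Finset.sum_congr rfl fun j _ => ?_
      rw [h0]; ring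
    rw [h1]; ring
  · rw [if_neg h, if_neg h, h0]

theorem la_scale (k : {i : s // i ≠ i₀} → ℤ) (t : ℝ) (ht : 0 < Real.log t) (l : m) :
    ∑ i, a l i * yy w i₀ (ex i₀ k) t i =
      Real.log t * la i₀ w a l (fun j => (k j : ℝ) / Real.log t) := by
  unfold la
  rw [Finset.mul_sum]
  refine Finset.sum_congr rfl fun i _ => ?_
  rw [yy_scale i₀ w k t ht]; ring

theorem DD_bounded (hw : ∀ i, 0 < w i)
    (hR : ∃ R : ℝ, ∀ y : s → ℝ, ∑ i, w i * y i = 1 / 2 → (∀ l, 0 ≤ ∑ i, a l i * y i) →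
      ∀ i, |y i| ≤ R) {x0 : {i : s // i ≠ i₀} → ℝ} {d : ℝ} (hd : 0 < d)
    (h0 : ∀ l, d ≤ la i₀ w a l x0) (δ : ℝ) : Bornology.IsBounded (DD i₀ w a δ) := by
  obtain ⟨R, hR⟩ := hR
  have hde : 0 < d + |δ| := by positivity
  refine (Metric.isBounded_Icc (fun j => -((R + |x0 j|) * ((d + |δ|) / d) + |x0 j|))
    (fun j => (R + |x0 j|) * ((d + |δ|) / d) + |x0 j|)).subset fun x hx => ?_
  have key : ∀ j, |x j| ≤ (R + |x0 j|) * ((d + |δ|) / d) + |x0 j| := by
    intro j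
    have h1 := hR (Yf i₀ w ((d / (d + |δ|)) • (x - x0) + x0)) (Yf_sum i₀ w hw _) (by
      intro l
      have h2 := la_aff i₀ w a l (d / (d + |δ|)) x x0
      change 0 ≤ la i₀ w a l _
      rw [h2]
      have h3 := hx l
      have h4 := h0 l
      have h5 : -|δ| ≤ la i₀ w a l x := by
        have := neg_abs_le δ
        linarith
      have h6 : (1 - d / (d + |δ|)) = |δ| / (d + |δ|) := by field_simp; ring
      rw [h6, div_mul_eq_mul_div, div_mul_eq_mul_div, ← add_div]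
      apply div_nonneg _ hde.le
      have h7 : 0 ≤ |δ| := abs_nonneg δ
      nlinarith) j.1
    unfold Yf at h1
    rw [if_neg j.2, ex_of_ne i₀ _ j.2] at h1
    simp only [Pi.add_apply, Pi.smul_apply, Pi.sub_apply, smul_eq_mul] at h1
    have h8 : x j = ((d / (d + |δ|) * (x j - x0 j) + x0 j) - x0 j) * ((d + |δ|) / d) + x0 j := by
      field_simp
      ring
    rw [h8]
    refine le_trans (abs_add_le _ _) ?_
    rw [abs_mul]
    have h9 : |(d + |δ|) / d| = (d + |δ|) / d := abs_of_pos (by positivity)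
    rw [h9]
    have h10 : |d / (d + |δ|) * (x j - x0 j) + x0 j - x0 j| ≤ R + |x0 j| :=
      le_trans (abs_sub _ _) (by
        have : |d / (d + |δ|) * (x j - x0 j) + x0 j| ≤ R := h1
        linarith)
    have h11 : 0 < (d + |δ|) / d := by positivity
    nlinarith [mul_le_mul_of_nonneg_right h10 h11.le]
  exact ⟨fun j => (abs_le.1 (key j)).1, fun j => (abs_le.1 (key j)).2⟩

theorem vol_homothety (x0 : {i : s // i ≠ i₀} → ℝ) (μ : ℝ) (hμ : 0 ≤ μ)
    (A : Set ({i : s // i ≠ i₀} → ℝ)) :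
    volume.real (AffineMap.homothety x0 μ '' A) =
      μ ^ Fintype.card {i : s // i ≠ i₀} * volume.real A := by
  unfold Measure.real
  rw [Measure.addHaar_image_homothety, ENNReal.toReal_mul, Module.finrank_fintype_fun_eq_card,
    abs_of_nonneg (pow_nonneg hμ _), ENNReal.toReal_ofReal (pow_nonneg hμ _)]

theorem vol_upper {x0 : {i : s // i ≠ i₀} → ℝ} {d : ℝ} (hd : 0 < d)
    (h0 : ∀ l, d ≤ la i₀ w a l x0) {δ : ℝ} (hδ : 0 ≤ δ)
    (hb : Bornology.IsBounded (DD i₀ w a 0)) :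
    volume.real (DD i₀ w a (-δ)) ≤
      (1 + δ / d) ^ Fintype.card {i : s // i ≠ i₀} * volume.real (DD i₀ w a 0) := by
  have hμ : 0 < 1 + δ / d := by positivity
  rw [← vol_homothety i₀ x0 _ hμ.le]
  refine measureReal_mono ?_ ?_
  · intro x hx
    refine ⟨(1 + δ / d)⁻¹ • (x - x0) + x0, fun l => ?_, ?_⟩
    · rw [la_aff]
      have h1 := hx l
      have h2 := h0 l
      have h3 : 0 < (1 + δ / d)⁻¹ := inv_pos.2 hμ
      have h4 : (1 + δ / d)⁻¹ * (1 + δ / d) = 1 := inv_mul_cancel₀ hμ.ne'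
      have h5 : (1 + δ / d)⁻¹ * (δ / d) = 1 - (1 + δ / d)⁻¹ := by linarith
      have h6 : (1 + δ / d)⁻¹ * δ = (1 - (1 + δ / d)⁻¹) * d := by
        rw [← h5]; field_simp
      have h7 : 0 ≤ 1 - (1 + δ / d)⁻¹ := by rw [← h5]; positivity
      nlinarith [mul_lt_mul_of_pos_left h1 h3, mul_le_mul_of_nonneg_left h2 h7]
    · rw [AffineMap.homothety_apply]
      simp only [vsub_eq_sub, vadd_eq_add, add_sub_cancel_right, smul_smul]
      rw [mul_inv_cancel₀ hμ.ne', one_smul, sub_add_cancel]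
  · rw [Measure.addHaar_image_homothety]
    exact ENNReal.mul_ne_top ENNReal.ofReal_ne_top hb.measure_lt_top.ne

theorem vol_lower {x0 : {i : s // i ≠ i₀} → ℝ} {d : ℝ} (hd : 0 < d)
    (h0 : ∀ l, d ≤ la i₀ w a l x0) {δ : ℝ} (hδ : 0 ≤ δ) (hδd : δ < d)
    (hb : Bornology.IsBounded (DD i₀ w a δ)) :
    (1 - δ / d) ^ Fintype.card {i : s // i ≠ i₀} * volume.real (DD i₀ w a 0) ≤
      volume.real (DD i₀ w a δ) := by
  have hμ : 0 < 1 - δ / d := by
    have : δ / d < 1 := (div_lt_one hd).2 hδd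
    linarith
  rw [← vol_homothety i₀ x0 _ hμ.le]
  refine measureReal_mono ?_ hb.measure_lt_top.ne
  rintro _ ⟨z, hz, rfl⟩ l
  rw [AffineMap.homothety_apply]
  simp only [vsub_eq_sub, vadd_eq_add]
  rw [la_aff]
  have h1 := hz l
  have h2 := h0 l
  have h3 : (1 - (1 - δ / d)) * d = δ := by field_simp; ring
  have h4 : 0 ≤ 1 - (1 - δ / d) := by
    have : 0 ≤ δ / d := by positivity
    linarith
  nlinarith [mul_pos hμ h1, mul_le_mul_of_nonneg_left h2 h4]

theorem exists_delta {x0 : {i : s // i ≠ i₀} → ℝ} {d : ℝ} (hd : 0 < d)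
    (h0 : ∀ l, d ≤ la i₀ w a l x0) (hb : ∀ δ, Bornology.IsBounded (DD i₀ w a δ))
    {κ : ℝ} (hκ : 0 < κ) :
    ∃ δ : ℝ, 0 < δ ∧ volume.real (DD i₀ w a (-δ)) ≤ volume.real (DD i₀ w a 0) + κ ∧
      volume.real (DD i₀ w a 0) - κ ≤ volume.real (DD i₀ w a δ) := by
  set n := Fintype.card {i : s // i ≠ i₀}
  set V := volume.real (DD i₀ w a 0)
  have h1 : Tendsto (fun δ : ℝ => (1 + δ / d) ^ n * V) (𝓝 0) (𝓝 V) := by
    have : Continuous fun δ : ℝ => (1 + δ / d) ^ n * V := by fun_prop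
    have h := this.tendsto 0
    simpa using h
  have h2 : Tendsto (fun δ : ℝ => (1 - δ / d) ^ n * V) (𝓝 0) (𝓝 V) := by
    have : Continuous fun δ : ℝ => (1 - δ / d) ^ n * V := by fun_prop
    have h := this.tendsto 0
    simpa using h
  have h3 : ∀ᶠ δ : ℝ in 𝓝 0, (1 + δ / d) ^ n * V < V + κ :=
    h1.eventually (gt_mem_nhds (by linarith))
  have h4 : ∀ᶠ δ : ℝ in 𝓝 0, V - κ < (1 - δ / d) ^ n * V :=
    h2.eventually (lt_mem_nhds (by linarith))
  have h5 : ∀ᶠ δ : ℝ in 𝓝 0, δ < d := gt_mem_nhds hd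
  obtain ⟨δ, hδ, hδ0⟩ := (((h3.and h4).and h5).filter_mono nhdsWithin_le_nhds |>.and
    (self_mem_nhdsWithin (s := Set.Ioi (0 : ℝ)) (a := 0))).exists
  have hδ0' : 0 < δ := hδ0
  exact ⟨δ, hδ0', (vol_upper i₀ w a hd h0 hδ0'.le (hb 0)).trans hδ.1.1.le,
    hδ.1.2.le.trans (vol_lower i₀ w a hd h0 hδ0'.le hδ.2 (hb δ))⟩

end forms

/-! ### lattice points -/

theorem finite_pts {J : Type} [Fintype J] {D : Set (J → ℝ)} (hb : Bornology.IsBounded D) {T : ℝ}
    (hT : 0 < T) : {z : J → ℤ | (fun i => (z i : ℝ) / T) ∈ D}.Finite := by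
  classical
  obtain ⟨R, hR⟩ := hb.exists_norm_le
  refine (Set.finite_Icc (fun _ : J => -⌈R * T⌉) (fun _ => ⌈R * T⌉)).subset fun z hz => ?_
  have h1 := hR _ hz
  have h2 : ∀ i, |(z i : ℝ)| ≤ R * T := by
    intro i
    have h3 := (norm_le_pi_norm (fun i => (z i : ℝ) / T) i).trans h1
    rw [Real.norm_eq_abs, abs_div, abs_of_pos hT, div_le_iff₀ hT] at h3
    exact h3
  refine ⟨fun i => ?_, fun i => ?_⟩
  · have h4 := (abs_le.1 (h2 i)).1
    have h5 := Int.le_ceil (R * T)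
    have : -((⌈R * T⌉ : ℤ) : ℝ) ≤ (z i : ℝ) := by linarith
    exact_mod_cast this
  · have h4 := (abs_le.1 (h2 i)).2
    have h5 := Int.le_ceil (R * T)
    have : (z i : ℝ) ≤ ((⌈R * T⌉ : ℤ) : ℝ) := by linarith
    exact_mod_cast this

theorem lpc1 (h : S_LPC) {J : Type} [Fintype J] {D : Set (J → ℝ)} (hb : Bornology.IsBounded D)
    (ho : IsOpen D) (hc : Convex ℝ D) {η : ℝ} (hη : 0 < η) :
    ∃ L : ℝ, 0 < L ∧ ∀ T, L ≤ T →
      |({z : J → ℤ | (fun i => (z i : ℝ) / T) ∈ D}.ncard : ℝ) / T ^ Fintype.card J -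
        volume.real D| ≤ η := by
  obtain ⟨L, hL, hL'⟩ := h J D hb ho.measurableSet (hc.addHaar_frontier volume) 1 one_pos
    Set.univ η hη
  refine ⟨L, hL, fun T hT => ?_⟩
  have h1 := hL' (fun _ => T) fun _ => hT
  have h2 : (Set.univ : Set (J → ZMod 1)).ncard = 1 := by
    rw [Set.ncard_univ]
    have : Unique (ZMod 1) := inferInstanceAs (Unique (Fin 1))
    exact Nat.card_unique
  rw [h2] at h1
  simp only [Set.mem_univ, true_and, Finset.prod_const, Finset.card_univ, Nat.cast_one,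
    mul_one, one_pow, div_one] at h1
  exact h1

theorem exists_lower {m : Type} [Fintype m] (f : m → ℝ) (hf : ∀ l, 0 < f l) :
    ∃ d : ℝ, 0 < d ∧ ∀ l, d ≤ f l := by
  rcases isEmpty_or_nonempty m with h | h
  · exact ⟨1, one_pos, fun l => h.elim l⟩
  · obtain ⟨l, hl⟩ := Finite.exists_min f
    exact ⟨f l, hf l, hl⟩

/-! ### the sum -/

/-- summation over the cells -/
theorem abs (h : S_LPC) : S_ABS := by
  intro s m _ _ _ i₀ w a hw hR hy
  obtain ⟨y0, hy0, hy0'⟩ := hy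
  set x0 : {i : s // i ≠ i₀} → ℝ := fun j => y0 j with hx0
  have hx0' : ∀ l, 0 < la i₀ w a l x0 := by
    intro l
    unfold la
    rw [hx0, Yf_restrict i₀ w hw y0 hy0]
    exact hy0' l
  obtain ⟨d, hd, hd'⟩ := exists_lower _ hx0'
  have hb : ∀ δ, Bornology.IsBounded (DD i₀ w a δ) := DD_bounded i₀ w a hw hR hd hd'
  set n := Fintype.card {i : s // i ≠ i₀} with hn
  have hcard : Fintype.card s - 1 = n := by
    rw [hn]
    exact (Set.card_ne_eq i₀).symm
  set V := volume.real (DD i₀ w a 0) with hV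
  have hVpos : 0 < V := by
    refine ENNReal.toReal_pos ?_ (hb 0).measure_lt_top.ne
    exact ((DD_open i₀ w a 0).measure_pos volume ⟨x0, hx0'⟩).ne'
  refine ⟨V, hVpos, fun F C hF0 hFC hFs hF => ?_⟩
  have hC : 0 ≤ C := by
    have h1 := hFC (fun _ => 0) 1 le_rfl
    have h2 := hF0 (fun _ => 0) 1
    linarith
  set Adm : ℝ → ℝ → Prop := fun η ℓ => ∀ ε : ℝ, 0 < ε → ∃ t₀ : ℝ, ∀ t, t₀ ≤ t → ∀ k : s → ℤ,
    k i₀ = 0 → (∀ l, ε * Real.log t ≤ ∑ i, a l i * yy w i₀ k t i) → |F k t / t - ℓ| ≤ η with hAdm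
  -- the set of the points
  set PT : ℝ → ℝ → Set ({i : s // i ≠ i₀} → ℤ) := fun δ T =>
    {z | (fun i => (z i : ℝ) / T) ∈ DD i₀ w a δ} with hPT
  have hPTfin : ∀ δ T, 0 < T → (PT δ T).Finite := fun δ T hT => finite_pts (hb δ) hT
  have hgood : ∀ (δ t : ℝ), 0 < Real.log t → ∀ z ∈ PT δ (Real.log t), ∀ l,
      δ * Real.log t ≤ ∑ i, a l i * yy w i₀ (ex i₀ z) t i := by
    intro δ t ht z hz l
    rw [la_scale i₀ w a z t ht l, mul_comm]
    exact mul_le_mul_of_nonneg_left (hz l).le ht.le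
  -- existence of good cells
  have hcell : ∃ ε : ℝ, 0 < ε ∧ ∀ t₁ : ℝ, ∃ t, t₁ ≤ t ∧ 1 ≤ t ∧ ∃ k : s → ℤ, k i₀ = 0 ∧
      ∀ l, ε * Real.log t ≤ ∑ i, a l i * yy w i₀ k t i := by
    obtain ⟨δ, hδ, -, hδ2⟩ := exists_delta i₀ w a hd hd' hb (κ := V / 4) (by positivity)
    obtain ⟨L, hL, hL'⟩ := lpc1 h (hb δ) (DD_open i₀ w a δ) (DD_convex i₀ w a δ)
      (show 0 < V / 4 by positivity)
    refine ⟨δ, hδ, fun t₁ => ?_⟩
    refine ⟨max t₁ (Real.exp L), le_max_left _ _, ?_, ?_⟩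
    · exact le_trans (Real.one_le_exp hL.le) (le_max_right _ _)
    · set t := max t₁ (Real.exp L) with ht
      have hLt : L ≤ Real.log t := by
        rw [Real.le_log_iff_exp_le (lt_of_lt_of_le (Real.exp_pos L) (le_max_right _ _))]
        exact le_max_right _ _
      have hT : 0 < Real.log t := lt_of_lt_of_le hL hLt
      have h1 := abs_le.1 (hL' _ hLt)
      have h2 : 0 < ((PT δ (Real.log t)).ncard : ℝ) / Real.log t ^ n := by
        have h3 : V - V / 4 ≤ volume.real (DD i₀ w a δ) := hδ2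
        have h4 := h1.1
        linarith
      have h3 : (PT δ (Real.log t)).ncard ≠ 0 := by
        intro h0
        rw [h0] at h2
        simp at h2
      obtain ⟨z, hz⟩ := Set.nonempty_of_ncard_ne_zero h3
      exact ⟨ex i₀ z, ex_self i₀ z, hgood δ t hT z hz⟩
  -- compatibility
  have hcomp : ∀ η ℓ η' ℓ', Adm η ℓ → Adm η' ℓ' → ℓ - η ≤ ℓ' + η' := by
    intro η ℓ η' ℓ' h1 h2
    obtain ⟨ε, hε, hcell⟩ := hcell
    obtain ⟨t1, ht1⟩ := h1 ε hε
    obtain ⟨t2, ht2⟩ := h2 ε hε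
    obtain ⟨t, ht, -, k, hk, hk'⟩ := hcell (max t1 t2)
    have h3 := abs_le.1 (ht1 t (le_trans (le_max_left _ _) ht) k hk hk')
    have h4 := abs_le.1 (ht2 t (le_trans (le_max_right _ _) ht) k hk hk')
    linarith [h3.1, h3.2, h4.1, h4.2]
  have hlow : ∀ η ℓ, Adm η ℓ → 0 ≤ ℓ + η := by
    intro η ℓ h1
    obtain ⟨ε, hε, hcell⟩ := hcell
    obtain ⟨t1, ht1⟩ := h1 ε hε
    obtain ⟨t, ht, ht', k, hk, hk'⟩ := hcell t1
    have h3 := abs_le.1 (ht1 t ht k hk hk')
    have h4 : 0 ≤ F k t / t := div_nonneg (hF0 k t) (by linarith)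
    linarith [h3.2]
  set W : Set ℝ := {x | ∃ η ℓ, Adm η ℓ ∧ x = ℓ - η} with hW
  obtain ⟨ℓ1, hℓ1⟩ := hF 1 one_pos
  have hWne : W.Nonempty := ⟨ℓ1 - 1, 1, ℓ1, hℓ1, rfl⟩
  have hWbd : BddAbove W := by
    refine ⟨ℓ1 + 1, ?_⟩
    rintro x ⟨η, ℓ, h1, rfl⟩
    exact hcomp η ℓ 1 ℓ1 h1 hℓ1
  set c := sSup W with hc
  have hcadm : ∀ η ℓ, Adm η ℓ → |c - ℓ| ≤ η := by
    intro η ℓ h1
    rw [abs_le]
    constructor
    · have := le_csSup hWbd (show ℓ - η ∈ W from ⟨η, ℓ, h1, rfl⟩)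
      linarith
    · have : c ≤ ℓ + η := csSup_le hWne (by
        rintro x ⟨η', ℓ', h2, rfl⟩
        exact hcomp η' ℓ' η ℓ h2 h1)
      linarith
  have hc0 : 0 ≤ c := by
    by_contra hneg
    push Not at hneg
    obtain ⟨ℓ, hℓ⟩ := hF (-c / 4) (by linarith)
    have h1 := hlow _ _ hℓ
    have h2 := abs_le.1 (hcadm _ _ hℓ)
    linarith [h2.1, h2.2]
  refine ⟨c, hc0, fun η ℓ _ h1 => hcadm η ℓ h1, ?_⟩
  rw [hcard, Metric.tendsto_atTop]
  intro e he
  set η := min 1 (e / (4 * (2 * V + 1))) with hη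
  have hηpos : 0 < η := lt_min one_pos (by positivity)
  set κ := min (1 / 2) (e / (4 * (4 * C + 2 * c + 2))) with hκ
  have hκpos : 0 < κ := lt_min (by norm_num) (by positivity)
  obtain ⟨ℓ, hℓ⟩ := hF η hηpos
  obtain ⟨δ, hδ, hδ1, hδ2⟩ := exists_delta i₀ w a hd hd' hb hκpos
  obtain ⟨L1, hL1, hL1'⟩ := lpc1 h (hb (-δ)) (DD_open i₀ w a (-δ)) (DD_convex i₀ w a (-δ)) hκpos
  obtain ⟨L2, hL2, hL2'⟩ := lpc1 h (hb δ) (DD_open i₀ w a δ) (DD_convex i₀ w a δ) hκpos
  obtain ⟨t0, ht0⟩ := hℓ δ hδ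
  refine ⟨max t0 (Real.exp (L1 + L2 + C / δ + 1)), fun t ht => ?_⟩
  have htt0 : t0 ≤ t := le_trans (le_max_left _ _) ht
  have hte : Real.exp (L1 + L2 + C / δ + 1) ≤ t := le_trans (le_max_right _ _) ht
  have htpos : 0 < t := lt_of_lt_of_le (Real.exp_pos _) hte
  have hT' : L1 + L2 + C / δ + 1 ≤ Real.log t := by
    rwa [Real.le_log_iff_exp_le htpos]
  have hCδ : 0 ≤ C / δ := by positivity
  have ht1 : 1 ≤ t := le_trans (Real.one_le_exp (by linarith)) hte
  set T := Real.log t with hT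
  have hTpos : 0 < T := by linarith
  have hA := hPTfin (-δ) T hTpos
  have hB := hPTfin δ T hTpos
  have hBA : PT δ T ⊆ PT (-δ) T := fun z hz => DD_mono i₀ w a (by linarith) hz
  classical
  have hBA' : hB.toFinset ⊆ hA.toFinset := Set.Finite.toFinset_subset_toFinset.2 hBA
  have hsum : ∑ᶠ k ∈ {k : s → ℤ | k i₀ = 0}, F k t = ∑ z ∈ hA.toFinset, F (ex i₀ z) t := by
    rw [finsum_mem_eq_sum_of_inter_support_eq (t := hA.toFinset.map ⟨ex i₀, ex_inj i₀⟩)
      (fun k => F k t), Finset.sum_map]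
    · rfl
    · ext k
      constructor
      · rintro ⟨hk, hk'⟩
        refine ⟨?_, hk'⟩
        have hk0 : k i₀ = 0 := hk
        have hk'' : F k t ≠ 0 := hk'
        have hkz : ex i₀ (fun j : {i : s // i ≠ i₀} => k j.1) = k := by
          funext i
          by_cases hi : i = i₀
          · rw [hi, ex_self, hk0]
          · rw [ex_of_ne i₀ _ hi]
        rw [Finset.coe_map]
        refine ⟨fun j => k j.1, ?_, hkz⟩
        rw [Set.Finite.coe_toFinset]
        intro l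
        have h1 := hFs k t ht1 hk'' l
        rw [← hkz, la_scale i₀ w a _ t hTpos l] at h1
        have h2 : C < δ * T := by
          have h3 : C / δ < T := by linarith
          rw [div_lt_iff₀ hδ] at h3
          linarith
        by_contra hcon
        push Not at hcon
        have h3 : T * la i₀ w a l (fun j => ((k j.1 : ℤ) : ℝ) / T) ≤ T * (-δ) :=
          mul_le_mul_of_nonneg_left hcon hTpos.le
        have h4 : -C ≤ T * la i₀ w a l (fun j => ((k j.1 : ℤ) : ℝ) / T) := h1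
        linarith
      · rintro ⟨hk, hk'⟩
        refine ⟨?_, hk'⟩
        rw [Finset.coe_map] at hk
        obtain ⟨z, -, rfl⟩ := hk
        exact ex_self i₀ z
  have hsplit : ∑ z ∈ hA.toFinset, F (ex i₀ z) t = ∑ z ∈ hB.toFinset, F (ex i₀ z) t +
      ∑ z ∈ hA.toFinset \ hB.toFinset, F (ex i₀ z) t := by
    rw [add_comm, Finset.sum_sdiff hBA']
  set NB : ℝ := (hB.toFinset.card : ℝ) with hNB
  set NA : ℝ := (hA.toFinset.card : ℝ) with hNA
  have hNBA : NB ≤ NA := by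
    rw [hNB, hNA]
    exact Nat.cast_le.2 (Finset.card_le_card hBA')
  have hS1 : |(∑ z ∈ hB.toFinset, F (ex i₀ z) t) / t - ℓ * NB| ≤ η * NB := by
    have h1 : (∑ z ∈ hB.toFinset, F (ex i₀ z) t) / t - ℓ * NB =
        ∑ z ∈ hB.toFinset, (F (ex i₀ z) t / t - ℓ) := by
      rw [Finset.sum_sub_distrib, Finset.sum_const, nsmul_eq_mul, ← Finset.sum_div]
      ring
    rw [h1]
    refine (Finset.abs_sum_le_sum_abs _ _).trans ?_
    have h2 : ∑ z ∈ hB.toFinset, |F (ex i₀ z) t / t - ℓ| ≤ ∑ z ∈ hB.toFinset, η := by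
      refine Finset.sum_le_sum fun z hz => ?_
      rw [Set.Finite.mem_toFinset] at hz
      exact ht0 t htt0 (ex i₀ z) (ex_self i₀ z) (hgood δ t hTpos z hz)
    refine h2.trans ?_
    rw [Finset.sum_const, nsmul_eq_mul]
    linarith
  have hS2 : 0 ≤ (∑ z ∈ hA.toFinset \ hB.toFinset, F (ex i₀ z) t) / t ∧
      (∑ z ∈ hA.toFinset \ hB.toFinset, F (ex i₀ z) t) / t ≤ C * (NA - NB) := by
    constructor
    · exact div_nonneg (Finset.sum_nonneg fun z _ => hF0 _ _) htpos.le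
    · rw [div_le_iff₀ htpos]
      have h1 : ∑ z ∈ hA.toFinset \ hB.toFinset, F (ex i₀ z) t ≤
          ∑ z ∈ hA.toFinset \ hB.toFinset, C * t :=
        Finset.sum_le_sum fun z _ => hFC _ _ ht1
      refine h1.trans ?_
      rw [Finset.sum_const, nsmul_eq_mul, Finset.card_sdiff_of_subset hBA',
        Nat.cast_sub (Finset.card_le_card hBA')]
      rw [← hNA, ← hNB]
      linarith
  have hTn : 0 < T ^ n := pow_pos hTpos n
  have hAn : |NA / T ^ n - V| ≤ 2 * κ ∧ |NB / T ^ n - V| ≤ 2 * κ := by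
    have h1 := abs_le.1 (hL1' T (by linarith))
    have h2 := abs_le.1 (hL2' T (by linarith))
    have h3 : ((PT (-δ) T).ncard : ℝ) = NA := by
      rw [hNA, Set.ncard_eq_toFinset_card _ hA]
    have h4 : ((PT δ T).ncard : ℝ) = NB := by
      rw [hNB, Set.ncard_eq_toFinset_card _ hB]
    have h5 : NB / T ^ n ≤ NA / T ^ n := div_le_div_of_nonneg_right hNBA hTn.le
    have h1' : -κ ≤ NA / T ^ n - volume.real (DD i₀ w a (-δ)) ∧
        NA / T ^ n - volume.real (DD i₀ w a (-δ)) ≤ κ := by rw [← h3]; exact h1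
    have h2' : -κ ≤ NB / T ^ n - volume.real (DD i₀ w a δ) ∧
        NB / T ^ n - volume.real (DD i₀ w a δ) ≤ κ := by rw [← h4]; exact h2
    rw [abs_le, abs_le]
    refine ⟨⟨?_, ?_⟩, ?_, ?_⟩ <;> linarith [h1'.1, h1'.2, h2'.1, h2'.2]
  set p := NA / T ^ n with hp
  set q := NB / T ^ n with hq
  have hfin : dist ((∑ᶠ k ∈ {k : s → ℤ | k i₀ = 0}, F k t) / (t * T ^ n)) (c * V) ≤
      η * q + C * (p - q) + |ℓ| * |q - V| + |ℓ - c| * V := by
    rw [hsum, hsplit, Real.dist_eq]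
    set S1 := ∑ z ∈ hB.toFinset, F (ex i₀ z) t with hS1'
    set S2 := ∑ z ∈ hA.toFinset \ hB.toFinset, F (ex i₀ z) t with hS2'
    have e1 : (S1 + S2) / (t * T ^ n) - c * V =
        (S1 / t - ℓ * NB) / T ^ n + (S2 / t) / T ^ n + ℓ * (q - V) + (ℓ - c) * V := by
      rw [hq]
      field_simp
      ring
    rw [e1]
    have e2 : |(S1 / t - ℓ * NB) / T ^ n| ≤ η * q := by
      rw [abs_div, abs_of_pos hTn, div_le_iff₀ hTn, hq, mul_assoc, div_mul_cancel₀ _ hTn.ne']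
      exact hS1
    have e3 : |(S2 / t) / T ^ n| ≤ C * (p - q) := by
      rw [abs_of_nonneg (div_nonneg hS2.1 hTn.le), div_le_iff₀ hTn, hp, hq]
      refine hS2.2.trans (le_of_eq ?_)
      field_simp
    have e4 : |ℓ * (q - V)| ≤ |ℓ| * |q - V| := (abs_mul _ _).le
    have e5 : |(ℓ - c) * V| ≤ |ℓ - c| * V := by rw [abs_mul, abs_of_pos hVpos]
    calc |(S1 / t - ℓ * NB) / T ^ n + (S2 / t) / T ^ n + ℓ * (q - V) + (ℓ - c) * V|
        ≤ |(S1 / t - ℓ * NB) / T ^ n| + |(S2 / t) / T ^ n| + |ℓ * (q - V)| + |(ℓ - c) * V| := by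
          refine (abs_add_le _ _).trans ?_
          refine add_le_add ?_ le_rfl
          refine (abs_add_le _ _).trans ?_
          refine add_le_add ?_ le_rfl
          exact abs_add_le _ _
      _ ≤ _ := by linarith
  refine lt_of_le_of_lt hfin ?_
  have hlc : |ℓ - c| ≤ η := by rw [abs_sub_comm]; exact hcadm η ℓ hℓ
  have hη1 : η ≤ 1 := min_le_left _ _
  have hκ1 : κ ≤ 1 / 2 := min_le_left _ _
  have hℓabs : |ℓ| ≤ c + 1 := by
    have h1 := abs_le.1 hlc
    rw [abs_le]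
    constructor <;> linarith [h1.1, h1.2]
  have hq1 := abs_le.1 hAn.2
  have hp1 := abs_le.1 hAn.1
  have g1 : η * q ≤ η * (V + 1) := mul_le_mul_of_nonneg_left (by linarith) hηpos.le
  have g2 : C * (p - q) ≤ C * (4 * κ) := mul_le_mul_of_nonneg_left (by linarith) hC
  have g3 : |ℓ| * |q - V| ≤ (c + 1) * (2 * κ) :=
    mul_le_mul hℓabs hAn.2 (abs_nonneg _) (by linarith)
  have g4 : |ℓ - c| * V ≤ η * V := mul_le_mul_of_nonneg_right hlc hVpos.le
  have g5 : η * (2 * V + 1) ≤ e / 4 := by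
    have h1 : η ≤ e / (4 * (2 * V + 1)) := min_le_right _ _
    have h2 : 0 < 2 * V + 1 := by linarith
    calc η * (2 * V + 1) ≤ e / (4 * (2 * V + 1)) * (2 * V + 1) :=
          mul_le_mul_of_nonneg_right h1 h2.le
      _ = e / 4 := by field_simp
  have g6 : κ * (4 * C + 2 * c + 2) ≤ e / 4 := by
    have h1 : κ ≤ e / (4 * (4 * C + 2 * c + 2)) := min_le_right _ _
    have h2 : 0 < 4 * C + 2 * c + 2 := by linarith
    calc κ * (4 * C + 2 * c + 2) ≤ e / (4 * (4 * C + 2 * c + 2)) * (4 * C + 2 * c + 2) :=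
          mul_le_mul_of_nonneg_right h1 h2.le
      _ = e / 4 := by field_simp
  nlinarith

end Pool.Agent.Y288.KE
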